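import Mathlib
import Pool.Agent.Q152.ExcRef

/-!
# Exclusive-copy edge-mapping numbers: the global and the host-graph version differ

For `G` the path with three vertices and `n = 8` the host-graph number is at most `13` and the global
number is at least `14`.
-/

set_option autoImplicit false

namespace Pool.Agent.Results.MP_f12eed_co.EightVertices

open SimpleGraph Pool.Agent.Q152.Exc

/-- The map `f : E(H) → E(H)` has an exclusive copy of `G`: a subgraph `K` of `H` isomorphic to `G`
such that `f e` contains no vertex of `K` for every edge `e` of `K`. -/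
def HasExclusive {V W : Type} (G : SimpleGraph W) (H : SimpleGraph V)
    (f : H.edgeSet → H.edgeSet) : Prop :=
  ∃ K : H.Subgraph, Nonempty (G ≃g K.coe) ∧
    ∀ (e : Sym2 V) (he : e ∈ K.edgeSet), ∀ v ∈ K.verts,
      v ∉ ((f ⟨e, K.edgeSet_subset he⟩ : H.edgeSet) : Sym2 V)

/-- The edge `e` and its image are disjoint. -/
def Moves {V : Type} (H : SimpleGraph V) (f : H.edgeSet → H.edgeSet) (e : H.edgeSet) : Prop :=
  ∀ v ∈ (e : Sym2 V), v ∉ (f e : Sym2 V)

/-- The host-graph number `s(n, G)`: the largest number of edges of a graph `H` on `n` vertices for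
which some `f : E(H) → E(H)` with `f e ∩ e = ∅` for all `e` is `G`-blocking. -/
noncomputable def s {W : Type} (n : ℕ) (G : SimpleGraph W) : ℕ :=
  sSup {m | ∃ (H : SimpleGraph (Fin n)) (f : H.edgeSet → H.edgeSet),
    (∀ e, Moves H f e) ∧ ¬ HasExclusive G H f ∧ H.edgeSet.ncard = m}

/-- The global number `p(n, G)`: the largest `m ≤ n(n-1)/2` for which some `f : E(K_n) → E(K_n)` with
`f e ∩ e = ∅` for at least `m` edges is `G`-blocking. -/
noncomputable def p {W : Type} (n : ℕ) (G : SimpleGraph W) : ℕ :=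
  sSup {m | m ≤ n.choose 2 ∧
    ∃ f : (⊤ : SimpleGraph (Fin n)).edgeSet → (⊤ : SimpleGraph (Fin n)).edgeSet,
      m ≤ {e | Moves ⊤ f e}.ncard ∧ ¬ HasExclusive G ⊤ f}

/-! ### The lower bound for the global number -/

/-- The table of the map. -/
def tbl : List (Sym2 (Fin 8) × Sym2 (Fin 8)) :=
  [(s(4, 6), s(0, 5)), (s(2, 3), s(0, 1)), (s(1, 2), s(0, 5)), (s(0, 3), s(1, 4)),
   (s(4, 5), s(0, 1)), (s(0, 1), s(2, 5)), (s(0, 2), s(3, 4)), (s(6, 7), s(4, 5)),
   (s(0, 4), s(1, 7)), (s(5, 6), s(1, 4)), (s(1, 5), s(3, 7)), (s(1, 3), s(0, 2)),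
   (s(5, 7), s(4, 6)), (s(4, 7), s(5, 6))]

/-- The map of the pairs. -/
def f0 (e : Sym2 (Fin 8)) : Sym2 (Fin 8) :=
  match tbl.find? (fun x => decide (x.1 = e)) with
  | some x => x.2
  | none => e

theorem f0_diag : ∀ a b : Fin 8, a ≠ b → ¬ (f0 s(a, b)).IsDiag := by decide +kernel

theorem f0_block : ∀ a b c : Fin 8, a ≠ b → b ≠ c → a ≠ c →
    (a ∈ f0 s(a, b) ∨ b ∈ f0 s(a, b) ∨ c ∈ f0 s(a, b)) ∨
      (a ∈ f0 s(b, c) ∨ b ∈ f0 s(b, c) ∨ c ∈ f0 s(b, c)) := by decide +kernel

/-- The map of the edges. -/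
def F (e : (⊤ : SimpleGraph (Fin 8)).edgeSet) : (⊤ : SimpleGraph (Fin 8)).edgeSet :=
  ⟨f0 e.1, by
    obtain ⟨e, he⟩ := e
    induction e with
    | _ a b =>
      rw [mem_edgeSet, top_adj] at he
      have := f0_diag a b he
      simpa using this⟩

theorem fourteen_le : 14 ≤ {e | Moves (⊤ : SimpleGraph (Fin 8)) F e}.ncard := by
  have h1 : (Finset.univ.filter fun e : (⊤ : SimpleGraph (Fin 8)).edgeSet =>
      ∀ v ∈ e.1, v ∉ f0 e.1).card = 14 := by decide +kernel
  rw [← h1, ← Set.ncard_coe_finset]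
  apply Set.ncard_le_ncard _ (Set.toFinite _)
  intro e he
  have h : ∀ v ∈ e.1, v ∉ f0 e.1 := by simpa using he
  exact h

theorem F_block : ¬ HasExclusive (pathGraph 3) (⊤ : SimpleGraph (Fin 8)) F := by
  rintro ⟨K, ⟨φ⟩, hK⟩
  have h01 : (pathGraph 3).Adj 0 1 := by rw [pathGraph_adj]; decide
  have h12 : (pathGraph 3).Adj 1 2 := by rw [pathGraph_adj]; decide
  have k01 : K.Adj (φ 0) (φ 1) := by
    have := φ.map_adj_iff.2 h01
    rwa [Subgraph.coe_adj] at this
  have k12 : K.Adj (φ 1) (φ 2) := by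
    have := φ.map_adj_iff.2 h12
    rwa [Subgraph.coe_adj] at this
  have n02 : (φ 0 : Fin 8) ≠ φ 2 := by
    intro h
    have := φ.injective (Subtype.ext h)
    exact absurd this (by decide)
  have h1 := hK s((φ 0 : Fin 8), φ 1) k01
  have h2 := hK s((φ 1 : Fin 8), φ 2) k12
  rcases f0_block (φ 0) (φ 1) (φ 2) (K.adj_sub k01).ne (K.adj_sub k12).ne n02 with
    (h | h | h) | (h | h | h)
  · exact h1 _ (φ 0).2 h
  · exact h1 _ (φ 1).2 h
  · exact h1 _ (φ 2).2 h
  · exact h2 _ (φ 0).2 h
  · exact h2 _ (φ 1).2 h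
  · exact h2 _ (φ 2).2 h

theorem p_ge : 14 ≤ p 8 (pathGraph 3) := by
  apply le_csSup
  · exact ⟨Nat.choose 8 2, fun m hm => hm.1⟩
  · exact ⟨by decide, F, fourteen_le, F_block⟩

/-! ### The upper bound for the host-graph number -/

/-- The vertex `c` is in the image of the edge `ab`. -/
def T {H : SimpleGraph (Fin 8)} (f : H.edgeSet → H.edgeSet) (a b c : Fin 8) : Prop :=
  ∃ h : H.Adj a b, c ∈ ((f ⟨s(a, b), h⟩ : H.edgeSet) : Sym2 (Fin 8))

theorem path_block {H : SimpleGraph (Fin 8)} {f : H.edgeSet → H.edgeSet}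
    (hf : ∀ e, Moves H f e) (hb : ¬ HasExclusive (pathGraph 3) H f) {a b c : Fin 8} (hac : a ≠ c)
    (hab : H.Adj a b) (hbc : H.Adj b c) : T f a b c ∨ T f b c a := by
  by_contra hcon
  rw [not_or] at hcon
  obtain ⟨h1, h2⟩ := hcon
  apply hb
  let φ : Fin 3 → Fin 8 := ![a, b, c]
  have hφ : ∀ i j : Fin 3, (pathGraph 3).Adj i j → H.Adj (φ i) (φ j) := by
    intro i j hij
    rw [pathGraph_adj] at hij
    fin_cases i <;> fin_cases j <;> simp [φ] at hij ⊢ <;>
      first
        | exact hab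
        | exact hab.symm
        | exact hbc
        | exact hbc.symm
  have hinj : Function.Injective φ := by
    intro i j hij
    fin_cases i <;> fin_cases j <;> simp [φ] at hij ⊢ <;>
      first
        | exact absurd hij hab.ne
        | exact absurd hij hab.ne'
        | exact absurd hij hbc.ne
        | exact absurd hij hbc.ne'
        | exact absurd hij hac
        | exact absurd hij hac.symm
  let C : Copy (pathGraph 3) H := ⟨⟨φ, fun {i j} h => hφ i j h⟩, hinj⟩
  refine ⟨C.toSubgraph, ⟨C.isoToSubgraph⟩, ?_⟩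
  have hv : ∀ v ∈ C.toSubgraph.verts, v = a ∨ v = b ∨ v = c := by
    intro v hv
    have : v ∈ Set.range φ := by
      simpa [Copy.toSubgraph, C] using hv
    obtain ⟨i, rfl⟩ := this
    fin_cases i <;> simp [φ]
  intro e he v hve
  have hmv := hf ⟨e, C.toSubgraph.edgeSet_subset he⟩
  have hab1 : ∀ h : s(a, b) ∈ H.edgeSet, v ∉ ((f ⟨s(a, b), h⟩ : H.edgeSet) : Sym2 (Fin 8)) := by
    intro h
    rcases hv v hve with rfl | rfl | rfl
    · exact hf ⟨s(v, b), h⟩ v (by simp)
    · exact hf ⟨s(a, v), h⟩ v (by simp)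
    · exact fun hh => h1 ⟨hab, hh⟩
  have hbc1 : ∀ h : s(b, c) ∈ H.edgeSet, v ∉ ((f ⟨s(b, c), h⟩ : H.edgeSet) : Sym2 (Fin 8)) := by
    intro h
    rcases hv v hve with rfl | rfl | rfl
    · exact fun hh => h2 ⟨hbc, hh⟩
    · exact hf ⟨s(v, c), h⟩ v (by simp)
    · exact hf ⟨s(b, v), h⟩ v (by simp)
  have hee : e = s(a, b) ∨ e = s(b, c) := by
    induction e with
    | _ x y =>
      rw [Subgraph.mem_edgeSet] at he
      have : Relation.Map (⊤ : (pathGraph 3).Subgraph).Adj φ φ x y := by
        simpa [Copy.toSubgraph, C] using he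
      obtain ⟨i, j, hij, rfl, rfl⟩ := this
      rw [Subgraph.top_adj, pathGraph_adj] at hij
      fin_cases i <;> fin_cases j <;> simp [φ] at hij ⊢
  rcases hee with rfl | rfl
  · exact hab1 _
  · exact hbc1 _

/-- A labelling of the vertices with the neighbours of `v` first. -/
theorem label (H : SimpleGraph (Fin 8)) [DecidableRel H.Adj] (v : Fin 8) :
    ∃ l : ℕ → Fin 8, (∀ i < 8, ∀ j < 8, l i = l j → i = j) ∧ l 0 = v ∧
      ∀ i, 0 < i → i < 8 → (H.Adj v (l i) ↔ i ≤ H.degree v) := by
  classical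
  let N := H.neighborFinset v
  let R := (Finset.univ \ insert v N : Finset (Fin 8))
  have hvN : v ∉ N := by simp [N]
  let L : List (Fin 8) := v :: (N.toList ++ R.toList)
  have hnd : L.Nodup := by
    rw [List.nodup_cons, List.nodup_append]
    refine ⟨?_, N.nodup_toList, R.nodup_toList, ?_⟩
    · simp [R, hvN]
    · intro a ha b hb
      rw [Finset.mem_toList] at ha hb
      rintro rfl
      simp only [R, Finset.mem_sdiff, Finset.mem_insert, not_or] at hb
      exact hb.2.2 ha
  have hlen : L.length = 8 := by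
    have h1 : R.card = 8 - (N.card + 1) := by
      rw [Finset.card_sdiff_of_subset (Finset.subset_univ _), Finset.card_insert_of_notMem hvN]
      simp
    have h2 : N.card + 1 ≤ 8 := by
      rw [← Finset.card_insert_of_notMem hvN]
      exact (Finset.card_le_univ _).trans (by simp)
    simp only [L, List.length_cons, List.length_append, Finset.length_toList]
    omega
  refine ⟨fun i => L.getD i v, ?_, rfl, ?_⟩
  · intro i hi j hj hij
    have hi' : i < L.length := by omega
    have hj' : j < L.length := by omega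
    simp only [List.getD_eq_getElem _ _ hi', List.getD_eq_getElem _ _ hj'] at hij
    exact (hnd.getElem_inj_iff).1 hij
  · intro i hi0 hi
    have hi' : i < L.length := by omega
    have hd : H.degree v = N.toList.length := by
      rw [Finset.length_toList]
      rfl
    simp only [List.getD_eq_getElem _ _ hi']
    obtain ⟨k, rfl⟩ : ∃ k, i = k + 1 := ⟨i - 1, by omega⟩
    have hk : k < (N.toList ++ R.toList).length := by
      have : L.length = (N.toList ++ R.toList).length + 1 := rfl
      omega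
    have h1 : L[k + 1] = (N.toList ++ R.toList)[k] := rfl
    rw [h1]
    by_cases hkN : k < N.toList.length
    · rw [List.getElem_append_left hkN]
      have h2 : N.toList[k] ∈ N := by
        rw [← Finset.mem_toList]
        exact List.getElem_mem _
      have h3 : H.Adj v N.toList[k] := by simpa [N] using h2
      exact ⟨fun _ => by omega, fun _ => h3⟩
    · rw [List.getElem_append_right (by omega)]
      have hk2 : k - N.toList.length < R.toList.length := by
        rw [List.length_append] at hk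
        omega
      have h2 : R.toList[k - N.toList.length] ∈ R := by
        rw [← Finset.mem_toList]
        exact List.getElem_mem _
      simp only [R, Finset.mem_sdiff, Finset.mem_insert, not_or] at h2
      constructor
      · intro h
        exact absurd (by simpa [N] using h) h2.2.2
      · intro h
        omega

/-- The edge of a pair. -/
theorem idx : ∀ i < 8, ∀ j < 8, i < j → ∃ k < 28, e1 k = i ∧ e2 k = j := by decide

theorem no_host {H : SimpleGraph (Fin 8)} {f : H.edgeSet → H.edgeSet}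
    (hf : ∀ e, Moves H f e) (hb : ¬ HasExclusive (pathGraph 3) H f) (hm : 14 ≤ H.edgeSet.ncard) :
    False := by
  classical
  have hm' : 14 ≤ H.edgeFinset.card := by
    rw [← Set.ncard_coe_finset, coe_edgeFinset]
    exact hm
  -- a vertex of degree at least four
  obtain ⟨v, hv⟩ : ∃ v, 4 ≤ H.degree v := by
    by_contra hcon
    push Not at hcon
    have h1 := H.sum_degrees_eq_twice_card_edges
    have h2 : ∑ v, H.degree v ≤ ∑ _v : Fin 8, 3 := Finset.sum_le_sum fun v _ => by
      have := hcon v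
      omega
    simp at h2
    omega
  obtain ⟨l, hinj, hl0, hlN⟩ := label H v
  have hsurj : ∀ x : Fin 8, ∃ i < 8, l i = x := by
    have h1 : Function.Injective fun i : Fin 8 => l i := by
      intro i j hij
      exact Fin.ext (hinj i i.2 j j.2 hij)
    intro x
    obtain ⟨i, hi⟩ := (Finite.injective_iff_surjective.1 h1) x
    exact ⟨i, i.2, hi⟩
  let A : ℕ → ℕ → Prop := fun i j => i < 8 ∧ j < 8 ∧ H.Adj (l i) (l j)
  let TT : ℕ → ℕ → ℕ → Prop := fun i j k => T f (l i) (l j) (l k)
  let cnt : ℕ → ℕ := fun i => ((Finset.range (i + 1)).filter fun k => ¬ A (e1 k) (e2 k)).card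
  have hTsymm : ∀ a b c : Fin 8, T f a b c → T f b a c := by
    rintro a b c ⟨h, hc⟩
    refine ⟨h.symm, ?_⟩
    have : (⟨s(b, a), h.symm⟩ : H.edgeSet) = ⟨s(a, b), h⟩ := Subtype.ext Sym2.eq_swap
    rw [this]
    exact hc
  -- counting
  have htot : cnt 27 + ((Finset.range 28).filter fun k => A (e1 k) (e2 k)).card = 28 := by
    have := Finset.card_filter_add_card_filter_not (s := Finset.range 28)
      (fun k => A (e1 k) (e2 k))
    rw [Finset.card_range] at this
    change ((Finset.range (27 + 1)).filter fun k => ¬ A (e1 k) (e2 k)).card + _ = 28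
    norm_num only
    omega
  have hE : H.edgeFinset.card ≤ ((Finset.range 28).filter fun k => A (e1 k) (e2 k)).card := by
    apply Finset.card_le_card_of_surjOn fun k => s(l (e1 k), l (e2 k))
    intro e he
    rw [coe_edgeFinset] at he
    induction e with
    | _ x y =>
      rw [mem_edgeSet] at he
      obtain ⟨i, hi, rfl⟩ := hsurj x
      obtain ⟨j, hj, rfl⟩ := hsurj y
      have hne : i ≠ j := by
        rintro rfl
        exact he.ne rfl
      rcases lt_or_gt_of_ne hne with h | h
      · obtain ⟨k, hk, hk1, hk2⟩ := idx i hi j hj h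
        refine ⟨k, ?_, ?_⟩
        · rw [Finset.mem_coe, Finset.mem_filter, Finset.mem_range, hk1, hk2]
          exact ⟨hk, hi, hj, he⟩
        · simp only [hk1, hk2]
      · obtain ⟨k, hk, hk1, hk2⟩ := idx j hj i hi h
        refine ⟨k, ?_, ?_⟩
        · rw [Finset.mem_coe, Finset.mem_filter, Finset.mem_range, hk1, hk2]
          exact ⟨hk, hj, hi, he.symm⟩
        · simp only [hk1, hk2]
          exact Sym2.eq_swap
  have hmono : ∀ i, i < 28 → cnt i ≤ cnt 27 := by
    intro i hi
    apply Finset.card_le_card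
    apply Finset.filter_subset_filter
    intro x hx
    rw [Finset.mem_range] at hx ⊢
    omega
  have hstep : ∀ i, cnt (i + 1) = cnt i + if A (e1 (i + 1)) (e2 (i + 1)) then 0 else 1 := by
    intro i
    change ((Finset.range (i + 1 + 1)).filter fun k => ¬ A (e1 k) (e2 k)).card = _
    rw [Finset.range_add_one, Finset.filter_insert]
    by_cases h : A (e1 (i + 1)) (e2 (i + 1))
    · rw [if_neg (not_not.2 h), if_pos h]
      rfl
    · rw [if_pos h, if_neg h, Finset.card_insert_of_notMem (by simp)]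
  have h0 : cnt 0 = if A (e1 0) (e2 0) then 0 else 1 := by
    change ((Finset.range (0 + 1)).filter fun k => ¬ A (e1 k) (e2 k)).card = _
    rw [Finset.range_add_one, Finset.filter_insert]
    by_cases h : A (e1 0) (e2 0)
    · rw [if_neg (not_not.2 h), if_pos h]
      simp
    · rw [if_pos h, if_neg h]
      simp
  -- images of edges
  have himg : ∀ a b c : Fin 8, T f a b c → ∃ d, d ≠ a ∧ d ≠ b ∧ d ≠ c ∧ H.Adj c d ∧
      ∃ h : H.Adj a b, ((f ⟨s(a, b), h⟩ : H.edgeSet) : Sym2 (Fin 8)) = s(c, d) := by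
    rintro a b c ⟨h, hc⟩
    obtain ⟨d, hd⟩ := Sym2.mem_iff_exists.1 hc
    have h1 : H.Adj c d := by
      have := (f ⟨s(a, b), h⟩).2
      rw [hd] at this
      exact this
    have hm := hf ⟨s(a, b), h⟩
    refine ⟨d, ?_, ?_, h1.ne', h1, h, hd⟩
    · rintro rfl
      exact hm d (by simp) (by rw [hd]; simp)
    · rintro rfl
      exact hm d (by simp) (by rw [hd]; simp)
  refine refute (A := A) (T := TT) (cnt := cnt) ?_ ?_ ?_ ?_ ?_ ?_ ?_ ?_ ?_ ?_ ?_
    (min (H.degree v) 6) ?_ ?_ ?_
  · rintro a b ⟨h1, h2, h3⟩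
    exact ⟨h2, h1, h3.symm⟩
  · intro a b c h
    exact hTsymm _ _ _ h
  · intro a b c ha hb hc hab hac hbc hA hT
    obtain ⟨d, hda, hdb, hdc, hcd, h, hd⟩ := himg _ _ _ hT
    obtain ⟨i, hi, rfl⟩ := hsurj d
    refine ⟨i, hi, ?_, ?_, ?_, ⟨h, ?_⟩⟩
    · rintro rfl
      exact hda rfl
    · rintro rfl
      exact hdb rfl
    · rintro rfl
      exact hdc rfl
    · rw [hd]
      simp
  · intro a b c d ha hb hc hd hcd hA hTc hTd
    refine ⟨hc, hd, ?_⟩
    obtain ⟨x, _, _, _, hcx, h, hx⟩ := himg _ _ _ hTc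
    obtain ⟨_, h2⟩ := hTd
    rw [hx, Sym2.mem_iff] at h2
    rcases h2 with h2 | h2
    · exact absurd (hinj d hd c hc h2) (Ne.symm hcd)
    · rw [h2]
      exact hcx
  · intro a b c d e ha hb hc hd he hcd hce hde hA hTc hTd hTe
    obtain ⟨x, _, _, _, hcx, h, hx⟩ := himg _ _ _ hTc
    obtain ⟨_, h2⟩ := hTd
    obtain ⟨_, h3⟩ := hTe
    rw [hx, Sym2.mem_iff] at h2 h3
    have h2' : l d = x := h2.resolve_left fun hh => hcd (hinj d hd c hc hh).symm
    have h3' : l e = x := h3.resolve_left fun hh => hce (hinj e he c hc hh).symm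
    exact hde (hinj d hd e he (h2'.trans h3'.symm))
  · rintro a b c ha hb' hc hac ⟨_, _, h1⟩ ⟨_, _, h2⟩
    exact path_block hf hb (fun h => hac (hinj a ha c hc h)) h1 h2
  · intro i hi hA
    rcases Nat.eq_zero_or_pos i with rfl | hi0
    · rw [h0, if_neg hA]
    · obtain ⟨k, rfl⟩ : ∃ k, i = k + 1 := ⟨i - 1, by omega⟩
      rw [hstep, if_neg hA]
      omega
  · rw [h0]
    split_ifs <;> omega
  · intro i hi0 hi
    obtain ⟨k, rfl⟩ : ∃ k, i = k + 1 := ⟨i - 1, by omega⟩
    rw [hstep, Nat.add_sub_cancel]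
    omega
  · intro i hi0 hi hA
    obtain ⟨k, rfl⟩ : ∃ k, i = k + 1 := ⟨i - 1, by omega⟩
    rw [hstep, Nat.add_sub_cancel, if_neg hA]
  · intro i hi
    have := hmono i hi
    omega
  · intro i hi0 hi hid
    refine ⟨by norm_num, hi, ?_⟩
    rw [hl0, hlN i hi0 hi]
    omega
  · rintro i hi0 hi hid hd6 ⟨_, _, h⟩
    rw [hl0, hlN i hi0 hi] at h
    omega
  · omega

theorem s_le : s 8 (pathGraph 3) ≤ 13 := by
  apply csSup_le'
  rintro m ⟨H, f, hf, hb, rfl⟩
  by_contra hcon
  push Not at hcon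
  exact no_host hf hb hcon

/-- **Main result.** For the path `P₃` and `n = 8` one has `s(8, P₃) ≤ 13 < 14 ≤ p(8, P₃)`; so it is
not true that `p(n, G) = s(n, G)` for every graph `G` with an edge and every `n ≥ 4`. -/
theorem result : (s 8 (pathGraph 3) ≤ 13 ∧ 14 ≤ p 8 (pathGraph 3)) ∧
    ¬ ∀ (k : ℕ) (G : SimpleGraph (Fin k)), (∃ a b, G.Adj a b) → ∀ n : ℕ, 4 ≤ n → p n G = s n G := by
  refine ⟨⟨s_le, p_ge⟩, fun h => ?_⟩
  have h1 := h 3 (pathGraph 3) ⟨0, 1, by rw [pathGraph_adj]; decide⟩ 8 (by norm_num)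
  have h2 := s_le
  have h3 := p_ge
  omega

end Pool.Agent.Results.MP_f12eed_co.EightVertices
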